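import Pool.Agent.Q60.D3H.StmC

/-! Project D3H (helper60), job C4 PIND. -/

set_option autoImplicit false

namespace Pool.Agent.Q38.D3H

open Module Pool.Agent.W547.LD Pool.Agent.W547.LD.Comb Pool.Agent.Q60.D3G Pool.Agent.Q60.D3H

theorem eps_inj {G : Type} [Group G] {S T : Set G} (h : eps S = eps T) : S = T := by
  ext σ
  exact (eps_eq_iff S T σ).1 (congrFun h σ)

theorem rtr_eps {G : Type} [Group G] [Fintype G] (g : G) (S : Set G) : rtr g (eps S) = eps (tr g S) := rfl

theorem sum_ne {G : Type} [Group G] [Fintype G] {p : ℕ} [hp : Fact p.Prime] (h2 : 2 < p)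
    (S : ZMod p → Set G) : ∑ i, eps (S i) ≠ 0 := by
  classical
  intro h
  have h1 := congrFun h 1
  rw [Finset.sum_apply, Pi.zero_apply] at h1
  have e1 : ∀ i, eps (S i) 1 = 2 * (if (1 : G) ∈ S i then 1 else 0) - 1 := by
    intro i
    unfold eps
    split_ifs <;> norm_num
  rw [Finset.sum_congr rfl fun i _ => e1 i, Finset.sum_sub_distrib, ← Finset.mul_sum,
    Finset.sum_boole] at h1
  simp only [Finset.sum_const, Finset.card_univ, ZMod.card, nsmul_eq_mul, mul_one] at h1
  obtain ⟨m, hm⟩ : ∃ m : ℕ, m = (Finset.univ.filter fun i => (1 : G) ∈ S i).card := ⟨_, rfl⟩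
  rw [← hm] at h1
  have h3 : 2 * m = p := by
    have : (2 * m : ℚ) = p := by linarith
    exact_mod_cast this
  rcases hp.out.eq_one_or_self_of_dvd 2 ⟨m, h3.symm⟩ with h4 | h4 <;> omega

theorem pind (h : S_cyc) : S_pind := by
  intro G _ _ p hp h2 g S hS hap
  classical
  have h10 : (1 : ZMod p) ≠ 0 := one_ne_zero
  have ht : ∀ i, rtr g (eps (S i)) = eps (S (i + 1)) := fun i => by rw [rtr_eps, hS]
  have t10 : eps (S 1) ≠ eps (S 0) := fun h' => (hap 1 0 h10).1 (eps_inj h')
  refine ⟨?_, ?_⟩
  · rw [Fintype.linearIndependent_iff]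
    intro a ha i
    by_contra hi
    have ha0 : a ≠ 0 := fun h' => hi (by rw [h']; rfl)
    rcases h p (G → ℚ) (rtr g) (fun i => eps (S i)) a ht ha0 ha with h3 | h3
    · exact t10 h3
    · exact sum_ne h2 S h3
  · intro W hW hspan
    by_contra hcon
    push Not at hcon
    obtain ⟨hnot, F, hF, hFn⟩ := hcon
    obtain ⟨b, hb⟩ := (Submodule.mem_span_range_iff_exists_fun ℚ).1 (hspan F hF)
    have hD : F - rtr g F = ∑ i, (b i - b (i - 1)) • eps (S i) := by
      rw [← hb, map_sum]
      have e1 : ∑ i, rtr g (b i • eps (S i)) = ∑ i, b (i - 1) • eps (S i) := by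
        rw [← Equiv.sum_comp (Equiv.addRight (1 : ZMod p)) (fun i => b (i - 1) • eps (S i))]
        refine Finset.sum_congr rfl fun i _ => ?_
        rw [map_smul, ht, Equiv.coe_addRight, add_sub_cancel_right]
      rw [e1, ← Finset.sum_sub_distrib]
      exact Finset.sum_congr rfl fun i _ => (sub_smul _ _ _).symm
    have hDW : ∑ i, (b i - b (i - 1)) • eps (S i) ∈ W := by
      rw [← hD]
      exact W.sub_mem hF (hW F hF)
    have hD0 : (fun i => b i - b (i - 1)) ≠ 0 := by
      intro h0
      have h3 : ∀ i, b i = b (i - 1) := fun i => sub_eq_zero.1 (congrFun h0 i)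
      have h4 : ∀ n : ℕ, b (n : ZMod p) = b 0 := by
        intro n
        induction n with
        | zero => simp
        | succ n ih =>
          rw [h3, Nat.cast_succ, add_sub_cancel_right, ih]
      have h5 : ∀ i : ZMod p, b i = b 0 := by
        intro i
        have := h4 i.val
        rwa [ZMod.natCast_zmod_val] at this
      apply hFn (b 0)
      rw [← hb, Finset.smul_sum]
      exact Finset.sum_congr rfl fun i _ => by rw [h5]
    have hle : W ≤ W.comap (rtr g) := fun F hF => hW F hF
    have key := h p (((G → ℚ) ⧸ W) × ℚ) (LinearMap.prodMap (W.mapQ W (rtr g) hle) LinearMap.id)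
      (fun i => (W.mkQ (eps (S i)), 1)) (fun i => b i - b (i - 1)) ?_ hD0 ?_
    · rcases key with h3 | h3
      · apply hnot
        have h4 := congrArg Prod.fst h3
        simp only at h4
        have h5 : W.mkQ (eps (S 0) - eps (S 1)) = 0 := by
          rw [map_sub, h4, sub_self]
        exact (Submodule.Quotient.mk_eq_zero W).1 h5
      · have h4 := congrArg Prod.snd h3
        rw [Prod.snd_sum] at h4
        simp only [Finset.sum_const, Finset.card_univ, ZMod.card, nsmul_eq_mul, mul_one,
          Prod.snd_zero, Nat.cast_eq_zero] at h4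
        exact hp.out.ne_zero h4
    · intro i
      refine Prod.ext ?_ rfl
      show W.mapQ W (rtr g) hle (W.mkQ (eps (S i))) = W.mkQ (eps (S (i + 1)))
      rw [← ht]
      rfl
    · refine Prod.ext ?_ ?_
      · rw [Prod.fst_sum]
        show ∑ i, (b i - b (i - 1)) • W.mkQ (eps (S i)) = 0
        have : ∑ i, (b i - b (i - 1)) • W.mkQ (eps (S i))
            = W.mkQ (∑ i, (b i - b (i - 1)) • eps (S i)) := by
          rw [map_sum]
          exact Finset.sum_congr rfl fun i _ => (map_smul _ _ _).symm
        rw [this]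
        exact (Submodule.Quotient.mk_eq_zero W).2 hDW
      · rw [Prod.snd_sum]
        show ∑ i, (b i - b (i - 1)) • (1 : ℚ) = 0
        simp only [smul_eq_mul, mul_one]
        rw [Finset.sum_sub_distrib, sub_eq_zero]
        rw [← Equiv.sum_comp (Equiv.subRight (1 : ZMod p)) b]
        rfl

end Pool.Agent.Q38.D3H
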