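import Pool.Agent.Q60.D3H.StmC

/-! Project D3H (helper60), job C3 PREP. -/

set_option autoImplicit false
set_option linter.unusedSectionVars false

namespace Pool.Agent.Q38.D3H

open Module Pool.Agent.W547.LD Pool.Agent.W547.LD.Comb Pool.Agent.Q60.D3G Pool.Agent.Q60.D3H

section
variable {G : Type} [Group G] [Fintype G]

theorem tr_mod {p : ℕ} {τ : G} {x : Set G} (hx : tr (τ ^ p) x = x) (n : ℕ) :
    tr (τ ^ n) x = tr (τ ^ (n % p)) x := by
  have h1 : (τ ^ p) ^ (n / p) ∈ stb x := (stb x).pow_mem hx _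
  have h2 : τ ^ n = τ ^ (n % p) * (τ ^ p) ^ (n / p) := by
    rw [← pow_mul, ← pow_add, Nat.mod_add_div]
  rw [h2, ← tr_tr]
  exact congrArg _ h1

theorem tr_diff {τ : G} {x y : Set G} {a b : ℕ} (h : tr (τ ^ a) x = tr (τ ^ b) y) :
    tr (τ ^ ((a : ℤ) - b)) x = y := by
  have h1 : tr (τ ^ b)⁻¹ (tr (τ ^ a) x) = y := by rw [h, tr_inv_tr]
  rw [tr_tr] at h1
  rw [← h1]
  congr 1
  rw [sub_eq_add_neg, add_comm, zpow_add, zpow_neg, zpow_natCast, zpow_natCast]

theorem apart_seq {p : ℕ} [hp : Fact p.Prime] (h2 : 2 < p) {τ : G} {x : Set G}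
    (hx : tr (τ ^ p) x = x) (hm : tr τ x ≠ x) (i k : ZMod p) (hik : i ≠ k) :
    tr (τ ^ i.val) x ≠ tr (τ ^ k.val) x ∧ tr (τ ^ i.val) x ≠ (tr (τ ^ k.val) x)ᶜ := by
  have fin : ¬ (p : ℤ) ∣ ((i.val : ℤ) - k.val) := by
    intro hd
    apply hik
    have h3 : ((k.val : ℕ) : ZMod p) = ((i.val : ℕ) : ZMod p) := by
      rw [ZMod.natCast_eq_natCast_iff, Nat.modEq_iff_dvd]
      exact hd
    rw [ZMod.natCast_zmod_val, ZMod.natCast_zmod_val] at h3
    exact h3.symm
  refine ⟨fun h => fin (zpow_mem_stb hp.out hx hm (tr_diff h)), fun h => fin ?_⟩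
  have h3 : tr (τ ^ ((i.val : ℤ) - k.val)) x = xᶜ := tr_diff (by rw [h, tr_compl])
  have h4 : τ ^ (2 * ((i.val : ℤ) - k.val)) ∈ stb x := by
    rw [mem_stb, two_mul, zpow_add, ← tr_tr, h3, tr_compl, h3, compl_compl]
  have h5 := zpow_mem_stb hp.out hx hm h4
  rcases (Nat.prime_iff_prime_int.1 hp.out).dvd_or_dvd h5 with h6 | h6
  · exfalso
    have h7 : p ∣ 2 := by exact_mod_cast h6
    have := Nat.le_of_dvd (by norm_num) h7
    omega
  · exact h6

theorem prep : S_prep := by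
  intro G _ _ c hc Q hst htr hcompl hhalf p hp h2 hcard
  classical
  have hpos := hp.out.pos
  have hne : Q.Nonempty := by
    apply Set.nonempty_of_ncard_ne_zero
    omega
  obtain ⟨τ, hτ, x, hxQ, hmx⟩ := exists_order hst htr hne hp.out (p := p) ⟨2, by omega⟩
  have hx := hτ x hxQ
  have hap := apart_seq (p := p) h2 hx hmx
  refine ⟨τ, fun i => tr (τ ^ i.val) x, fun i => hst _ _ hxQ, ?_, hap, ?_⟩
  · intro i
    show tr τ (tr (τ ^ i.val) x) = tr (τ ^ (i + 1).val) x
    rw [tr_tr, ← pow_succ', tr_mod hx (i.val + 1)]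
    congr 2
    rw [ZMod.val_add, ZMod.val_one]
  · intro T hT
    have hinj : Function.Injective (fun i : ZMod p => tr (τ ^ i.val) x) := by
      intro i k h
      by_contra hne
      exact (hap i k hne).1 h
    have hnc : ∀ i k : ZMod p, tr (τ ^ i.val) x ≠ (tr (τ ^ k.val) x)ᶜ := by
      intro i k
      by_cases hik : i = k
      · rw [hik]
        exact ne_compl _
      · exact (hap i k hik).2
    have h1 : Function.Injective (Sum.elim (fun i : ZMod p => tr (τ ^ i.val) x)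
        (fun i : ZMod p => (tr (τ ^ i.val) x)ᶜ)) := by
      rintro (i | i) (k | k) h'
      · exact congrArg Sum.inl (hinj h')
      · exact absurd h' (hnc i k)
      · exact absurd h'.symm (hnc k i)
      · exact congrArg Sum.inr (hinj (compl_injective h'))
    have h3 : Set.range (Sum.elim (fun i : ZMod p => tr (τ ^ i.val) x)
        (fun i : ZMod p => (tr (τ ^ i.val) x)ᶜ)) = Q := by
      refine Set.eq_of_subset_of_ncard_le ?_ ?_ (Set.toFinite _)
      · rintro _ ⟨i | i, rfl⟩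
        · exact hst _ _ hxQ
        · exact hcompl _ (hst _ _ hxQ)
      · rw [Set.ncard_range_of_injective h1, hcard, Nat.card_sum, Nat.card_eq_fintype_card,
          ZMod.card]
        omega
    rw [← h3] at hT
    obtain ⟨i | i, hi⟩ := hT
    · exact ⟨i, Or.inl hi.symm⟩
    · exact ⟨i, Or.inr hi.symm⟩

end

end Pool.Agent.Q38.D3H
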